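import Pool.Agent.Helper36.RI.Goals
import Pool.Agent.Helper38.RF.FLBa

/-!
# Packet LNK (5581, helper36): covariant derivative and Laplacian on the frame bundle
-/

namespace Pool.Agent.Helper38.RI

open Finset Pool.Agent.Helper73.RF Pool.Agent.Helper73.RF.H38 Pool.Agent.Helper36.RI

variable {T : ℝ} {Q : BA T} {A θ P : Fin 3 → Fin 3 → Q.B}

/-! ### the class `XT` -/

theorem xt_add {f g : Q.B} (hf : Q.XT f) (hg : Q.XT g) : Q.XT (f + g) :=
  ⟨fun k => by rw [map_add, hf.1, hg.1, add_zero], fun k => by rw [map_add, hf.2, hg.2, add_zero]⟩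

theorem xt_sub {f g : Q.B} (hf : Q.XT f) (hg : Q.XT g) : Q.XT (f - g) :=
  ⟨fun k => by rw [map_sub, hf.1, hg.1, sub_zero], fun k => by rw [map_sub, hf.2, hg.2, sub_zero]⟩

theorem xt_smul (c : ℝ) {f : Q.B} (hf : Q.XT f) : Q.XT (c • f) :=
  ⟨fun k => by rw [Derivation.map_smul, hf.1, smul_zero], fun k => by rw [Derivation.map_smul, hf.2, smul_zero]⟩

theorem xt_mul {f g : Q.B} (hf : Q.XT f) (hg : Q.XT g) : Q.XT (f * g) :=
  ⟨fun k => by rw [Derivation.leibniz, hf.1, hg.1, smul_zero, smul_zero, add_zero],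
    fun k => by rw [Derivation.leibniz, hf.2, hg.2, smul_zero, smul_zero, add_zero]⟩

theorem xt_sum {ι : Type} (s : Finset ι) {f : ι → Q.B} (hf : ∀ i ∈ s, Q.XT (f i)) : Q.XT (∑ i ∈ s, f i) :=
  ⟨fun k => by rw [map_sum]; exact sum_eq_zero fun i hi => (hf i hi).1 k,
    fun k => by rw [map_sum]; exact sum_eq_zero fun i hi => (hf i hi).2 k⟩

theorem xt_E (hQ : Q.Ax) (i : Fin 3) {f : Q.B} (hf : Q.XT f) : Q.XT (Q.E i f) :=
  ⟨fun k => by rw [← hQ.EU, hf.1, map_zero], fun k => by rw [← hQ.EV, hf.2, map_zero]⟩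

theorem xt_Fd (hQ : Q.Ax) (hA : ∀ a i, Q.XT (A a i)) (c : Fin 3) {f : Q.B} (hf : Q.XT f) :
    Q.XT (FR.Fd Q.E A c f) := xt_sum _ fun i _ => xt_mul (hA c i) (xt_E hQ i hf)

theorem xt_C (hQ : Q.Ax) (hA : ∀ a i, Q.XT (A a i)) (ht : ∀ i a, Q.XT (θ i a)) (a b c : Fin 3) :
    Q.XT (FR.C Q.E A θ a b c) := by
  unfold FR.C
  refine xt_sum _ fun j _ => xt_mul (xt_add (xt_sub (xt_Fd hQ hA _ (hA _ _)) (xt_Fd hQ hA _ (hA _ _)))
    (xt_smul _ (xt_sum _ fun i _ => xt_sum _ fun k _ => xt_smul _ (xt_mul (hA _ _) (hA _ _))))) (ht _ _)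

theorem xt_Gam (hQ : Q.Ax) (hA : ∀ a i, Q.XT (A a i)) (ht : ∀ i a, Q.XT (θ i a)) (a b c : Fin 3) :
    Q.XT (FR.Gam Q.E A θ a b c) := by
  unfold FR.Gam
  exact xt_smul _ (xt_add (xt_sub (xt_C hQ hA ht _ _ _) (xt_C hQ hA ht _ _ _)) (xt_C hQ hA ht _ _ _))

theorem xt_nab (hQ : Q.Ax) (hA : ∀ a i, Q.XT (A a i)) (ht : ∀ i a, Q.XT (θ i a))
    (hP : ∀ a b, Q.XT (P a b)) (c a b : Fin 3) : Q.XT (nab Q.E A θ P c a b) := by
  unfold nab
  exact xt_sub (xt_sub (xt_Fd hQ hA _ (hP _ _)) (xt_sum _ fun d _ => xt_mul (xt_Gam hQ hA ht _ _ _) (hP _ _)))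
    (xt_sum _ fun d _ => xt_mul (xt_Gam hQ hA ht _ _ _) (hP _ _))

/-! ### horizontal derivatives of tensors -/

section Tensor

variable (hQ : Q.Ax) (hFra : FraStmt) (hH : FrameHyp Q.E A θ)
include hQ hFra hH

theorem Ha_R' (c i a : Fin 3) :
    Ha Q A θ c (Q.R i a) = ∑ e, Q.R c e * ∑ d, FR.Gam Q.E A θ e a d * Q.R i d := by
  obtain ⟨-, -, -, hGam, -, -, -⟩ := hFra Q.B Q.E A θ hH
  rw [Ha_apply]
  refine sum_congr rfl fun e _ => ?_
  congr 1
  have h1 : FR.Fd Q.E A e (Q.R i a) = 0 := by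
    unfold FR.Fd
    refine sum_eq_zero fun j _ => ?_
    rw [hQ.ER, mul_zero]
  rw [h1, zero_add]
  simp only [hQ.UR, hGam, mul_sum, sum_mul]
  rw [sum_comm]
  refine sum_congr rfl fun d _ => sum_congr rfl fun k _ => ?_
  rw [mul_smul_comm, smul_mul_assoc]

/-- moving an index: `∑_a (∑_d Γ_ead R_id) X_a = ∑_a R_ia (-∑_d Γ_ead X_d)` -/
theorem move (e i : Fin 3) (X : Fin 3 → Q.B) :
    ∑ a, (∑ d, FR.Gam Q.E A θ e a d * Q.R i d) * X a
      = ∑ a, Q.R i a * -∑ d, FR.Gam Q.E A θ e a d * X d := by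
  obtain ⟨-, -, hanti, -, -, -, -⟩ := hFra Q.B Q.E A θ hH
  simp only [sum_mul, mul_neg, mul_sum, ← sum_neg_distrib]
  rw [sum_comm]
  refine sum_congr rfl fun a _ => sum_congr rfl fun d _ => ?_
  rw [hanti e d a]
  ring

/-- derivative of a vector -/
theorem Ha_one (c i : Fin 3) (X : Fin 3 → Q.B) :
    Ha Q A θ c (∑ a, Q.R i a * X a)
      = (∑ a, Q.R i a * Ha Q A θ c (X a))
        + ∑ e, Q.R c e * ∑ a, Q.R i a * -∑ d, FR.Gam Q.E A θ e a d * X d := by
  rw [map_sum]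
  simp only [Derivation.leibniz, smul_eq_mul, sum_add_distrib]
  congr 1
  simp only [Ha_R' hQ hFra hH, ← move hQ hFra hH]
  simp only [mul_sum, sum_mul]
  rw [sum_comm]
  refine sum_congr rfl fun e _ => sum_congr rfl fun a _ => sum_congr rfl fun d _ => ?_
  ring

/-- derivative of a 2-tensor -/
theorem Ha_two (hA : ∀ a i, Q.XT (A a i)) (ht : ∀ i a, Q.XT (θ i a)) (hP : ∀ a b, Q.XT (P a b))
    (c i j : Fin 3) :
    Ha Q A θ c (∑ a, ∑ b, Q.R i a * Q.R j b * P a b)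
      = ∑ e, ∑ a, ∑ b, Q.R c e * Q.R i a * Q.R j b * nab Q.E A θ P e a b := by
  have h1 : ∑ a, ∑ b, Q.R i a * Q.R j b * P a b = ∑ a, Q.R i a * ∑ b, Q.R j b * P a b := by
    refine sum_congr rfl fun a _ => ?_
    rw [mul_sum]
    refine sum_congr rfl fun b _ => by ring
  rw [h1, Ha_one hQ hFra hH]
  simp only [Ha_one hQ hFra hH, fun a b => Ha_xt Q A θ c (hP a b).1]
  have h2 : ∀ e a b, nab Q.E A θ P e a b = FR.Fd Q.E A e (P a b)
      + (-∑ d, FR.Gam Q.E A θ e b d * P a d) + (-∑ d, FR.Gam Q.E A θ e a d * P d b) := by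
    intro e a b
    unfold nab
    ring
  simp only [h2, mul_add, sum_add_distrib]
  congr 1
  · congr 1
    · -- the derivative term
      have h3 : ∑ a, Q.R i a * ∑ b, Q.R j b * ∑ e, Q.R c e * FR.Fd Q.E A e (P a b)
          = ∑ a, ∑ b, ∑ e, Q.R c e * Q.R i a * Q.R j b * FR.Fd Q.E A e (P a b) := by
        refine sum_congr rfl fun a _ => ?_
        rw [mul_sum]
        refine sum_congr rfl fun b _ => ?_
        simp only [mul_sum]
        refine sum_congr rfl fun e _ => by ring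
      rw [h3]
      have h4 : ∀ G : Fin 3 → Fin 3 → Fin 3 → Q.B, ∑ a, ∑ b, ∑ e, G e a b = ∑ e, ∑ a, ∑ b, G e a b := by
        intro G
        have : ∀ a, ∑ b, ∑ e, G e a b = ∑ e, ∑ b, G e a b := fun a => sum_comm
        simp only [this]
        exact sum_comm
      exact h4 _
    · have h3 : ∀ a, Q.R i a * ∑ e, Q.R c e * ∑ b, Q.R j b * -∑ d, FR.Gam Q.E A θ e b d * P a d
          = ∑ e, ∑ b, Q.R c e * Q.R i a * Q.R j b * -∑ d, FR.Gam Q.E A θ e b d * P a d := by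
        intro a
        rw [mul_sum]
        refine sum_congr rfl fun e _ => ?_
        rw [mul_sum, mul_sum]
        refine sum_congr rfl fun b _ => by ring
      simp only [h3]
      exact sum_comm
  · refine sum_congr rfl fun e _ => ?_
    rw [mul_sum]
    refine sum_congr rfl fun a _ => ?_
    have h3 : ∑ d, FR.Gam Q.E A θ e a d * ∑ b, Q.R j b * P d b
        = ∑ b, Q.R j b * ∑ d, FR.Gam Q.E A θ e a d * P d b := by
      simp only [mul_sum]
      rw [sum_comm]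
      refine sum_congr rfl fun b _ => sum_congr rfl fun d _ => by ring
    rw [h3, ← sum_neg_distrib, mul_sum, mul_sum]
    refine sum_congr rfl fun b _ => by ring

/-- derivative of a 3-tensor with the first slot in direction `c`, summed over `c` -/
theorem Ha_three (hA : ∀ a i, Q.XT (A a i)) (ht : ∀ i a, Q.XT (θ i a))
    {N : Fin 3 → Fin 3 → Fin 3 → Q.B} (hN : ∀ e a b, Q.XT (N e a b)) (i j : Fin 3) :
    ∑ c, Ha Q A θ c (∑ e, ∑ a, ∑ b, Q.R c e * Q.R i a * Q.R j b * N e a b)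
      = ∑ a, ∑ b, Q.R i a * Q.R j b * ∑ c, (FR.Fd Q.E A c (N c a b)
          - ∑ d, FR.Gam Q.E A θ c c d * N d a b - ∑ d, FR.Gam Q.E A θ c a d * N c d b
          - ∑ d, FR.Gam Q.E A θ c b d * N c a d) := by
  have h1 : ∀ c, ∑ e, ∑ a, ∑ b, Q.R c e * Q.R i a * Q.R j b * N e a b
      = ∑ e, Q.R c e * ∑ a, ∑ b, Q.R i a * Q.R j b * N e a b := by
    intro c
    refine sum_congr rfl fun e _ => ?_
    rw [mul_sum]
    refine sum_congr rfl fun a _ => ?_
    rw [mul_sum]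
    refine sum_congr rfl fun b _ => by ring
  simp only [h1, Ha_one hQ hFra hH]
  have h2 : ∀ c e, Ha Q A θ c (∑ a, ∑ b, Q.R i a * Q.R j b * N e a b)
      = ∑ f, Q.R c f * ∑ a, ∑ b, Q.R i a * Q.R j b * nab Q.E A θ (N e) f a b := by
    intro c e
    rw [Ha_two hQ hFra hH hA ht (hN e)]
    refine sum_congr rfl fun f _ => ?_
    rw [mul_sum]
    refine sum_congr rfl fun a _ => ?_
    rw [mul_sum]
    refine sum_congr rfl fun b _ => by ring
  simp only [h2]
  rw [sum_add_distrib]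
  have h3 : ∑ c, ∑ e, Q.R c e * ∑ f, Q.R c f * ∑ a, ∑ b, Q.R i a * Q.R j b * nab Q.E A θ (N e) f a b
      = ∑ e, ∑ a, ∑ b, Q.R i a * Q.R j b * nab Q.E A θ (N e) e a b := by
    rw [← rot1 hQ (fun e f => ∑ a, ∑ b, Q.R i a * Q.R j b * nab Q.E A θ (N e) f a b)]
    refine sum_congr rfl fun c _ => sum_congr rfl fun e _ => ?_
    rw [mul_sum]
    refine sum_congr rfl fun f _ => by ring
  have h4 : ∑ c, ∑ e, Q.R c e * ∑ a, Q.R c a * -∑ d, FR.Gam Q.E A θ e a d
        * ∑ a, ∑ b, Q.R i a * Q.R j b * N d a b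
      = ∑ e, -∑ d, FR.Gam Q.E A θ e e d * ∑ a, ∑ b, Q.R i a * Q.R j b * N d a b := by
    rw [← rot1 hQ (fun e a => -∑ d, FR.Gam Q.E A θ e a d * ∑ a, ∑ b, Q.R i a * Q.R j b * N d a b)]
    refine sum_congr rfl fun c _ => sum_congr rfl fun e _ => ?_
    rw [mul_sum]
    refine sum_congr rfl fun f _ => by ring
  rw [h3, h4, ← sum_add_distrib]
  have h5 : ∀ e, ∑ a, ∑ b, Q.R i a * Q.R j b * nab Q.E A θ (N e) e a b
      + -∑ d, FR.Gam Q.E A θ e e d * ∑ a, ∑ b, Q.R i a * Q.R j b * N d a b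
      = ∑ a, ∑ b, Q.R i a * Q.R j b * (FR.Fd Q.E A e (N e a b)
          - ∑ d, FR.Gam Q.E A θ e e d * N d a b - ∑ d, FR.Gam Q.E A θ e a d * N e d b
          - ∑ d, FR.Gam Q.E A θ e b d * N e a d) := by
    intro e
    have h6 : ∑ d, FR.Gam Q.E A θ e e d * ∑ a, ∑ b, Q.R i a * Q.R j b * N d a b
        = ∑ a, ∑ b, Q.R i a * Q.R j b * ∑ d, FR.Gam Q.E A θ e e d * N d a b := by
      simp only [mul_sum]
      rw [sum_comm]
      refine sum_congr rfl fun a _ => ?_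
      rw [sum_comm]
      refine sum_congr rfl fun b _ => sum_congr rfl fun d _ => by ring
    rw [h6, ← sub_eq_add_neg, ← sum_sub_distrib]
    refine sum_congr rfl fun a _ => ?_
    rw [← sum_sub_distrib]
    refine sum_congr rfl fun b _ => ?_
    unfold nab
    ring
  simp only [h5]
  rw [sum_comm]
  refine sum_congr rfl fun a _ => ?_
  rw [sum_comm]
  refine sum_congr rfl fun b _ => ?_
  rw [mul_sum]

end Tensor

/-! ### rotation of 2-tensors -/

/-- rotated tensor -/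
def rot (Q : BA T) (X : Fin 3 → Fin 3 → Q.B) (i j : Fin 3) : Q.B := ∑ a, ∑ b, Q.R i a * Q.R j b * X a b

theorem rot_mul (hQ : Q.Ax) (X Y : Fin 3 → Fin 3 → Q.B) (i j : Fin 3) :
    rot Q (fun a b => ∑ c, X a c * Y c b) i j = ∑ c, rot Q X i c * rot Q Y c j := by
  have h1 : ∀ c, rot Q X i c * rot Q Y c j
      = ∑ a, ∑ b, Q.R c a * Q.R c b * ((∑ a', Q.R i a' * X a' a) * ∑ b', Q.R j b' * Y b b') := by
    intro c
    have h2 : rot Q X i c = ∑ a, Q.R c a * ∑ a', Q.R i a' * X a' a := by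
      unfold rot
      rw [sum_comm]
      refine sum_congr rfl fun a _ => ?_
      rw [mul_sum]
      refine sum_congr rfl fun b _ => by ring
    have h3 : rot Q Y c j = ∑ b, Q.R c b * ∑ b', Q.R j b' * Y b b' := by
      unfold rot
      refine sum_congr rfl fun a _ => ?_
      rw [mul_sum]
      refine sum_congr rfl fun b _ => by ring
    rw [h2, h3, sum_mul_sum]
    refine sum_congr rfl fun a _ => sum_congr rfl fun b _ => by ring
  simp only [h1]
  rw [rot1 hQ (fun a b => (∑ a', Q.R i a' * X a' a) * ∑ b', Q.R j b' * Y b b')]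
  simp only [sum_mul_sum]
  unfold rot
  simp only [mul_sum]
  have h4 : ∀ G : Fin 3 → Fin 3 → Fin 3 → Q.B, ∑ a, ∑ b, ∑ e, G e a b = ∑ e, ∑ a, ∑ b, G e a b := by
    intro G
    have : ∀ a, ∑ b, ∑ e, G e a b = ∑ e, ∑ b, G e a b := fun a => sum_comm
    simp only [this]
    exact sum_comm
  rw [h4]
  refine sum_congr rfl fun c _ => sum_congr rfl fun a _ => sum_congr rfl fun b _ => by ring

theorem rot_diag (hQ : Q.Ax) (X : Q.B) (i j : Fin 3) :
    rot Q (fun a b => if a = b then X else 0) i j = if i = j then X else 0 := by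
  unfold rot
  have h : ∀ a, ∑ b, Q.R i a * Q.R j b * (if a = b then X else 0) = Q.R i a * Q.R j a * X := by
    intro a
    simp
  simp only [h]
  rw [← sum_mul, hQ.RRt]
  split <;> simp

theorem rot_tr (hQ : Q.Ax) (X : Fin 3 → Fin 3 → Q.B) : trP (rot Q X) = trP X := by
  unfold trP rot
  exact rot1 hQ X

theorem rot_add (X Y : Fin 3 → Fin 3 → Q.B) (i j : Fin 3) :
    rot Q (fun a b => X a b + Y a b) i j = rot Q X i j + rot Q Y i j := by
  unfold rot
  simp only [mul_add, sum_add_distrib]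

theorem rot_sub (X Y : Fin 3 → Fin 3 → Q.B) (i j : Fin 3) :
    rot Q (fun a b => X a b - Y a b) i j = rot Q X i j - rot Q Y i j := by
  unfold rot
  simp only [mul_sub, sum_sub_distrib]

theorem rot_smul (c : ℝ) (X : Fin 3 → Fin 3 → Q.B) (i j : Fin 3) :
    rot Q (fun a b => c • X a b) i j = c • rot Q X i j := by
  unfold rot
  simp only [mul_smul_comm, smul_sum]

theorem rot_cmul (f : Q.B) (X : Fin 3 → Fin 3 → Q.B) (i j : Fin 3) :
    rot Q (fun a b => f * X a b) i j = f * rot Q X i j := by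
  unfold rot
  simp only [mul_sum]
  refine sum_congr rfl fun a _ => sum_congr rfl fun b _ => by ring

theorem rot_n2 (hQ : Q.Ax) (X : Fin 3 → Fin 3 → Q.B) :
    ∑ c, ∑ d, rot Q X c d ^ 2 = ∑ c, ∑ d, X c d ^ 2 := n2eq hQ X

theorem rot_QP (hQ : Q.Ax) (P : Fin 3 → Fin 3 → Q.B) (i j : Fin 3) : rot Q (QP P) i j = QP (rot Q P) i j := by
  have h : QP P = fun a b => ((4 : ℝ) • ∑ c, P a c * P c b - (2 : ℝ) • (trP P * P a b))
      + if a = b then trP P ^ 2 - ∑ c, ∑ d, P c d ^ 2 else 0 := rfl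
  rw [h, rot_add, rot_sub, rot_smul, rot_smul, rot_cmul, rot_mul hQ, rot_diag hQ]
  unfold QP
  rw [rot_tr hQ, rot_n2 hQ]

theorem rot_Sf (hQ : Q.Ax) (P : Fin 3 → Fin 3 → Q.B) (i j : Fin 3) : rot Q (Sf P) i j = Sf (rot Q P) i j := by
  have h : Sf P = fun a b => (if a = b then trP P else 0) - P a b := rfl
  rw [h, rot_sub, rot_diag hQ]
  unfold Sf
  rw [rot_tr hQ]

theorem rot_ten (hQ : Q.Ax) (hP : ∀ a b, Q.XT (P a b)) (k i j : Fin 3) :
    Q.V k (rot Q P i j) = ∑ a, (eps k i a • rot Q P a j + eps k j a • rot Q P i a) := by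
  have h1 : Q.V k (rot Q P i j) = ∑ a, ∑ b, ((∑ c, eps k i c • Q.R c a) * Q.R j b * P a b
      + Q.R i a * (∑ c, eps k j c • Q.R c b) * P a b) := by
    unfold rot
    rw [map_sum]
    refine sum_congr rfl fun a _ => ?_
    rw [map_sum]
    refine sum_congr rfl fun b _ => ?_
    rw [Derivation.leibniz, (hP a b).2, Derivation.leibniz, hQ.VR, hQ.VR]
    simp only [smul_eq_mul, mul_zero, zero_add]
    ring
  rw [h1]
  simp only [sum_add_distrib]
  congr 1
  · unfold rot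
    simp only [smul_sum, sum_mul, smul_mul_assoc]
    have h4 : ∀ G : Fin 3 → Fin 3 → Fin 3 → Q.B, ∑ a, ∑ b, ∑ e, G e a b = ∑ e, ∑ a, ∑ b, G e a b := by
      intro G
      have : ∀ a, ∑ b, ∑ e, G e a b = ∑ e, ∑ b, G e a b := fun a => sum_comm
      simp only [this]
      exact sum_comm
    exact h4 _
  · unfold rot
    simp only [smul_sum, mul_sum, sum_mul, mul_smul_comm, smul_mul_assoc]
    have h4 : ∀ G : Fin 3 → Fin 3 → Fin 3 → Q.B, ∑ a, ∑ b, ∑ e, G e a b = ∑ e, ∑ a, ∑ b, G e a b := by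
      intro G
      have : ∀ a, ∑ b, ∑ e, G e a b = ∑ e, ∑ b, G e a b := fun a => sum_comm
      simp only [this]
      exact sum_comm
    exact h4 _

theorem rot_D (hQ : Q.Ax) (i j : Fin 3) : Q.Dt (rot Q P i j) = rot Q (fun a b => Q.Dt (P a b)) i j := by
  unfold rot
  rw [map_sum]
  refine sum_congr rfl fun a _ => ?_
  rw [map_sum]
  refine sum_congr rfl fun b _ => ?_
  rw [Derivation.leibniz, Derivation.leibniz, hQ.DR, hQ.DR]
  simp

theorem rot_sym (hs : ∀ a b, P a b = P b a) (i j : Fin 3) : rot Q P i j = rot Q P j i := by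
  unfold rot
  rw [sum_comm]
  refine sum_congr rfl fun a _ => sum_congr rfl fun b _ => ?_
  rw [hs b a]; ring

theorem lnk : G_LNK := by
  intro hFra T Q hQ A θ P hs hP hFH hD hfull
  have hH : FrameHyp Q.E A θ := ⟨hQ.EE, hFH.At, hFH.tA⟩
  have h2 := fun c i j => Ha_two hQ hFra hH hFH.XA hFH.Xt hP c i j
  have hnab := fun c a b => xt_nab hQ hFH.XA hFH.Xt hP c a b
  have hlap : ∀ i j, ∑ c, Ha Q A θ c (Ha Q A θ c (rot Q P i j)) = rot Q (lapF Q.E A θ P) i j := by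
    intro i j
    have h3 := Ha_three hQ hFra hH hFH.XA hFH.Xt hnab i j
    unfold rot
    simp only [h2]
    rw [h3]
    rfl
  refine ⟨⟨hfull, rot_sym hs, rot_ten hQ hP, rot_Sf hQ P, ?_⟩, h2, hnab⟩
  intro i j
  have h4 : Q.Dt (rot Q P i j) = (∑ c, Ha Q A θ c (Ha Q A θ c (rot Q P i j))) + QP (rot Q P) i j := by
    rw [rot_D hQ, hlap, ← rot_QP hQ, ← rot_add]
    congr 1
    funext a b
    exact hD a b
  exact h4

end Pool.Agent.Helper38.RI
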